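import Pool.Agent.Work.MP_cb528c_lc.Final
import Pool.Agent.Work.MP_cb528c_lc.IMain

set_option autoImplicit false
set_option linter.all false

/-!
# MP_cb528c_lc: the Lindenbaum algebra of the class of strongly constructivizable structures with non finitely
axiomatizable theory has characteristic Pi^0_4

`σ` is any finite rich signature (`CB.Sig.Rich`), `CB.LNC σ` is the Lindenbaum algebra of `Th(N ∩ C)` (`CB.ThNC σ`), `CB.gnum σ`
its Goedel numeration.  `CB.WU 4 ν`: `(B, ν)` is a Pi^0_4 algebra and every Pi^0_4 algebra is isomorphic to a relative algebra of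
`B`; a Pi^0_4 universal algebra in the sense of the question has this property.
-/

theorem Pool.Agent.Results.MP_cb528c_lc.LindenbaumPi4.result (σ : CB.Sig) (h : σ.Rich) :
    CB.WU 4 (CB.gnum σ) ∧
    ∀ (B : Type) (_ : BooleanAlgebra B) (ν : ℕ → B), CB.WU 4 ν → Nonempty (CB.LNC σ ≃o B) :=
  ⟨CB.lnc_wu CB.interp_main σ h, fun _ _ _ hB => CB.lnc_unique CB.interp_main σ h hB⟩
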